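import Mathlib
import Pool.Agent.W2helper54.GB.Fin

/-!
# The levels of limit rank of the Baire stratification of generalized Borel functions

Answer to Q2. Here `κ` is the cardinal `λ` of the question; `Sp κ` is the space of all functions
from `κ` to `κ` with the bounded topology.

Let `ξ < κ⁺` be a limit ordinal of cofinality `< κ`.

* The inclusion of `M_{ξ+1}(X, Y)` in `lim_κ (lim_{cof ξ} M_{<ξ}(X, Y))` holds for all subspaces
  `X`, `Y` of `Sp κ`.
* The inclusion of `M_{ξ+1}(X, Y)` in the class `lim_κ` of the stable `cof ξ`-limits of functions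
  in `M_{<ξ}(X, Y)` fails for `X = Sp κ` and every `Y` with at least two points; hence the equality
  in Q2 is false.
-/

set_option autoImplicit false

namespace Pool.Agent.Results.MP_f4bae3_lc.LimitLevels

open Cardinal Pool.Agent.R590.Kur Pool.Agent.W2helper54.GB

theorem result (κ : Cardinal.{0}) (hκ : κ.IsRegular) (hunc : ℵ₀ < κ)
    (h2 : (2 : Cardinal.{0}) ^< κ = κ) (ξ : Ordinal.{0}) (hlim : Order.IsSuccLimit ξ)
    (hξ : ξ < (Order.succ κ).ord) (hcof : ξ.cof < κ) :
    (∀ X Y : Set (Sp κ), Meas κ X Y (ξ + 1) ⊆ Lim κ (Lim ξ.cof (MeasLT κ X Y ξ))) ∧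
    ∀ Y : Set (Sp κ), Y.Nontrivial →
      ¬ Meas κ (Set.univ : Set (Sp κ)) Y (ξ + 1) ⊆
        Lim κ (HatLim κ ξ ξ.cof (MeasLT κ (Set.univ : Set (Sp κ)) Y ξ)) := by
  refine ⟨fun X Y f hf => pos hκ hunc h2 hlim hcof X Y f hf, fun Y hY h => ?_⟩
  obtain ⟨f, h1, h3⟩ := neg hκ hunc h2 hlim hξ hcof Y hY
  exact h3 (h h1)

end Pool.Agent.Results.MP_f4bae3_lc.LimitLevels
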